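import Pool.Agent.KS6_41.SC5.Weak

namespace Pool.Agent.KS6_41.SC5

open Finset

variable {V : Type*} {R B : V → V → Prop}

structure OT (R B : V → V → Prop) (M S : Finset V) (z : V) : Prop where
  t : HT R B M S z
  conn : Conn R S
  nS : S.Nonempty
  hS : ∀ s ∈ S, ∃ w ∈ M, R w s
  hM : ∀ w ∈ M, (∃ s ∈ S, R w s) ∧ (∃ s ∈ S, B w s)
  w4 : ∀ w ∈ M, ∀ w' ∈ M, R w w' → ∃ x, (x ∈ M ∨ x ∈ S) ∧ B x w ∧ B x w'

theorem caseB (h : Cfg R B) {M S : Finset V} {z : V} (o : OT R B M S z) (hnc : ¬ Conn B S) :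
    False := by
  classical
  have t := o.t
  have hMne : M.Nonempty := by
    obtain ⟨s, hs⟩ := o.nS
    obtain ⟨w, hw, _⟩ := o.hS s hs
    exact ⟨w, hw⟩
  obtain ⟨w, hw, hmax⟩ := Finset.exists_max_image M (fun u => (nb R S u).card) hMne
  by_cases hII : ∃ s ∈ S, nb R S w ⊆ cc B S s
  · obtain ⟨s, hs, hsub⟩ := hII
    obtain ⟨q, hq, hqK⟩ := exists_not_mem_of_ne cc_sub (cc_ne_of_not_conn (T := B) h.bs hnc hs)
    refine no_weak _ R B h (ua R B M S s) (cc B S s) z q ⟨typeII h t hmax hs hsub, ?_, ?_,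
      ⟨w, mem_ua.2 ⟨hw, hsub⟩⟩, ⟨s, cc_self hs⟩⟩ rfl
    · intro p hp
      exact h.rs (red_of_not_mem h hp hq hqK)
    · intro u hu
      have hu' := mem_ua.1 hu
      exact h.bs (t.rb h hu'.1 hq (fun hr => hqK (hu'.2 (mem_nb.2 ⟨hq, hr⟩))))
  push Not at hII
  have hno : ∀ s ∈ S, ¬ nb R S w ⊆ cc B S s := hII
  have c3 : ∀ x ∈ M, x ∉ cc B M w → ∀ p ∈ S, R w p → ¬ R x p := by
    intro x hx hxn p hp hwp hxp
    obtain ⟨v, hv, hvw, hvp⟩ := c2 h t hw hno hp hwp
    have hvU : v ∈ cc B M w := cc_closed (cc_self hw) hv (h.bs hvw)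
    have hvx : R v x := red_of_not_mem h hvU hx hxn
    have hwx : R w x := red_of_not_mem h (cc_self hw) hx hxn
    have hQ : ∀ q ∈ S, ¬ R w q → R q x := by
      intro q hq hwq
      by_contra hn
      have hbq : B q x := h.bs (t.rb h hx hq (fun hr => hn (h.rs hr)))
      have hpq : R p q := closedI h t hw hno hp hwp hq hwq
      have hvq : ¬ R v q := fun hr => hwq (c1 h t hw hmax hno hvU q hq hr)
      exact h.bull (a := q) (x := p) (y := x) (b := v) (z := w) (h.rs hpq) (h.rs hxp) (h.rs hvx)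
        (h.rs hwp) (h.rs hwx) hbq (h.bs (t.rb h hv hq hvq)) (h.bs (t.rb h hw hq hwq))
        (h.bs hvp) (h.bs hvw)
    obtain ⟨y, hy, hyw, hyx⟩ := o.w4 w hw x hx hwx
    rcases hy with hy | hy
    · exact hxn (cc_closed (cc_closed (cc_self hw) hy (h.bs hyw)) hx hyx)
    · exact h.ex (hQ y hy (fun hr => h.ex hr (h.bs hyw))) hyx
  obtain ⟨q, hq, hwq⟩ := (o.hM w hw).2
  have hwq' : ¬ R w q := fun hr => h.ex hr hwq
  refine no_weak _ R B h (cc B M w) (nb R S w) z q ⟨typeI h t hw hmax hno c3, ?_, ?_,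
      ⟨w, cc_self hw⟩, ?_⟩ rfl
  · intro p hp
    have hp' := mem_nb.1 hp
    exact h.rs (closedI h t hw hno hp'.1 hp'.2 hq hwq')
  · intro u hu
    exact h.bs (t.rb h (cc_sub hu) hq (fun hr => hwq' (c1 h t hw hmax hno hu q hq hr)))
  · obtain ⟨s, hs, hws⟩ := (o.hM w hw).1
    exact ⟨s, mem_nb.2 ⟨hs, hws⟩⟩

/-- proper nonempty modules of `S` -/
def Md (R : V → V → Prop) (S K : Finset V) : Prop :=
  K ⊆ S ∧ K ≠ S ∧ K.Nonempty ∧ ∀ x ∈ S, x ∉ K → ∀ a ∈ K, ∀ a' ∈ K, R x a → R x a'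

def eqv (R : V → V → Prop) (S : Finset V) (s t : V) : Prop := ∃ K, Md R S K ∧ s ∈ K ∧ t ∈ K

theorem eqv_symm {S : Finset V} {s t : V} (e : eqv R S s t) : eqv R S t s := by
  obtain ⟨K, hK, hs, ht⟩ := e
  exact ⟨K, hK, ht, hs⟩

open Classical in
theorem md_union (h : Cfg R B) {S K L : Finset V} (hR : Conn R S) (hB : Conn B S)
    (hK : Md R S K) (hL : Md R S L) {c : V} (cK : c ∈ K) (cL : c ∈ L) : Md R S (K ∪ L) := by
  obtain ⟨hK1, hK2, hK3, hK4⟩ := hK
  obtain ⟨hL1, hL2, hL3, hL4⟩ := hL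
  refine ⟨Finset.union_subset hK1 hL1, ?_, ⟨c, Finset.mem_union_left _ cK⟩, ?_⟩
  · intro hE
    obtain ⟨y, hyS, hyK⟩ := exists_not_mem_of_ne hK1 hK2
    obtain ⟨x, hxS, hxL⟩ := exists_not_mem_of_ne hL1 hL2
    have hyL : y ∈ L := by
      have := hE ▸ hyS
      rcases Finset.mem_union.1 this with hh | hh
      · exact absurd hh hyK
      · exact hh
    have hinK : ∀ a ∈ S, a ∉ L → a ∈ K := by
      intro a ha haL
      have := hE ▸ ha
      rcases Finset.mem_union.1 this with hh | hh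
      · exact hh
      · exact absurd hh haL
    have hxK := hinK x hxS hxL
    have hne : x ≠ y := by rintro rfl; exact hxL hyL
    rcases h.tot hne with hr | hb
    · obtain ⟨a, ha, b, hb, hab, haL, hbL⟩ := hB (fun v => v ∉ L) ⟨x, hxS, hxL⟩
        ⟨y, hyS, fun hh => hh hyL⟩
      have hbL' : b ∈ L := by by_contra hh; exact hbL hh
      have haK := hinK a ha haL
      have r1 : R y a := hK4 y hyS hyK x hxK a haK (h.rs hr)
      have r2 : R a b := hL4 a ha haL y hyL b hbL' (h.rs r1)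
      exact h.ex r2 hab
    · obtain ⟨a, ha, b, hb', hab, haL, hbL⟩ := hR (fun v => v ∉ L) ⟨x, hxS, hxL⟩
        ⟨y, hyS, fun hh => hh hyL⟩
      have hbL' : b ∈ L := by by_contra hh; exact hbL hh
      have haK := hinK a ha haL
      have r1 : R a y := hL4 a ha haL b hbL' y hyL hab
      have r2 : R y x := hK4 y hyS hyK a haK x hxK (h.rs r1)
      exact h.ex (h.rs r2) hb
  · intro x hxS hx a ha a' ha' hxa
    have hxK : x ∉ K := fun hh => hx (Finset.mem_union_left _ hh)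
    have hxL : x ∉ L := fun hh => hx (Finset.mem_union_right _ hh)
    have hxc : R x c := by
      rcases Finset.mem_union.1 ha with hh | hh
      · exact hK4 x hxS hxK a hh c cK hxa
      · exact hL4 x hxS hxL a hh c cL hxa
    rcases Finset.mem_union.1 ha' with hh | hh
    · exact hK4 x hxS hxK c cK a' hh hxc
    · exact hL4 x hxS hxL c cL a' hh hxc

theorem eqv_trans (h : Cfg R B) {S : Finset V} (hR : Conn R S) (hB : Conn B S) {s t u : V}
    (e1 : eqv R S s t) (e2 : eqv R S t u) : eqv R S s u := by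
  classical
  obtain ⟨K, hK, hs, ht⟩ := e1
  obtain ⟨L, hL, ht', hu⟩ := e2
  exact ⟨K ∪ L, md_union h hR hB hK hL ht ht', Finset.mem_union_left _ hs,
    Finset.mem_union_right _ hu⟩

theorem homog {S : Finset V} {x t t' : V} (hx : x ∈ S) (hn : ¬ eqv R S x t)
    (e : eqv R S t t') (hr : R x t) : R x t' := by
  obtain ⟨K, hK, ht, ht'⟩ := e
  exact hK.2.2.2 x hx (fun hxK => hn ⟨K, hK, hxK, ht⟩) t ht t' ht' hr

theorem eqv_refl {S : Finset V} {s t u : V} (hs : s ∈ S) (ht : t ∈ S) (hst : s ≠ t)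
    (hu : u ∈ S) : eqv R S u u := by
  refine ⟨{u}, ⟨by simpa using hu, ?_, ⟨u, by simp⟩, ?_⟩, by simp, by simp⟩
  · intro hE
    have h1 : s ∈ ({u} : Finset V) := by rw [hE]; exact hs
    have h2 : t ∈ ({u} : Finset V) := by rw [hE]; exact ht
    rw [Finset.mem_singleton] at h1 h2
    exact hst (h1.trans h2.symm)
  · intro x _ _ a ha a' ha' hr
    rw [Finset.mem_singleton] at ha ha'
    rw [ha'.trans ha.symm]; exact hr

theorem eqv_proper (h : Cfg R B) {S : Finset V} (hR : Conn R S) (hB : Conn B S) {s : V}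
    (hrefl : eqv R S s s) : ∃ t ∈ S, ¬ eqv R S s t := by
  classical
  by_contra hcon
  push Not at hcon
  have key : ∀ T : Finset V, T ⊆ S → ∃ K, Md R S K ∧ s ∈ K ∧ T ⊆ K := by
    intro T
    induction T using Finset.induction_on with
    | empty =>
      intro _
      obtain ⟨K, hK, hsK, _⟩ := hrefl
      exact ⟨K, hK, hsK, Finset.empty_subset _⟩
    | insert a T _ ih =>
      intro hT
      obtain ⟨K, hK, hsK, hTK⟩ := ih (fun x hx => hT (Finset.mem_insert_of_mem hx))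
      obtain ⟨L, hL, hsL, haL⟩ := hcon a (hT (Finset.mem_insert_self _ _))
      refine ⟨K ∪ L, md_union h hR hB hK hL hsK hsL, Finset.mem_union_left _ hsK, ?_⟩
      intro x hx
      rcases Finset.mem_insert.1 hx with hh | hh
      · rw [hh]; exact Finset.mem_union_right _ haL
      · exact Finset.mem_union_left _ (hTK hh)
  obtain ⟨K, hK, _, hSK⟩ := key S (Finset.Subset.refl _)
  exact hK.2.1 (Finset.Subset.antisymm hK.1 hSK)

theorem m1 (h : Cfg R B) {M S : Finset V} {z : V} (o : OT R B M S z) {v a b : V} (hv : v ∈ M)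
    (ha : a ∈ S) (hb : b ∈ S) (va : R v a) (vb : R v b) (hab : R a b) : eqv R S a b := by
  have t := o.t
  have haN : a ∈ nb R S v := mem_nb.2 ⟨ha, va⟩
  have hbN : b ∈ nb R S v := mem_nb.2 ⟨hb, vb⟩
  have hsub : cc R (nb R S v) a ⊆ S := fun x hx => (mem_nb.1 (cc_sub hx)).1
  refine ⟨cc R (nb R S v) a, ⟨hsub, ?_, ⟨a, cc_self haN⟩, ?_⟩, cc_self haN,
    cc_closed (cc_self haN) hbN hab⟩
  · intro hE
    obtain ⟨s, hs, hvs⟩ := (o.hM v hv).2
    rw [← hE] at hs
    exact h.ex (mem_nb.1 (cc_sub hs)).2 hvs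
  · intro x hxS hx a1 ha1 a2 ha2 hxa1
    by_contra hn
    have hvx : ¬ R v x := by
      intro hr
      exact hx (cc_closed ha1 (mem_nb.2 ⟨hxS, hr⟩) (h.rs hxa1))
    obtain ⟨a3, ha3, a4, ha4, h34, h3, h4⟩ := cc_conn (T := R) h.rs haN (fun y => R x y)
      ⟨a1, ha1, hxa1⟩ ⟨a2, ha2, hn⟩
    have m3 := mem_nb.1 (cc_sub ha3)
    have m4 := mem_nb.1 (cc_sub ha4)
    exact h4 (pi1 h (t.zU hv) (t.zP m3.1) (t.zP m4.1) (t.zP hxS) m3.2 m4.2
      (t.rb h hv hxS hvx) h34 h3)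

theorem caseA (h : Cfg R B) {M S : Finset V} {z : V} (o : OT R B M S z) (hB : Conn B S) :
    False := by
  classical
  have t := o.t
  have hR := o.conn
  have hMne : M.Nonempty := by
    obtain ⟨s, hs⟩ := o.nS
    obtain ⟨w, hw, _⟩ := o.hS s hs
    exact ⟨w, hw⟩
  obtain ⟨w, hw, hmax⟩ := Finset.exists_max_image M (fun u => (nb R S u).card) hMne
  obtain ⟨⟨a0, ha0, hwa0⟩, ⟨b0, hb0, hwb0⟩⟩ := o.hM w hw
  have hab0 : a0 ≠ b0 := by rintro rfl; exact h.ex hwa0 hwb0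
  have hrefl : ∀ u ∈ S, eqv R S u u := fun u hu => eqv_refl ha0 hb0 hab0 hu
  have tr := fun {s t u : V} (e1 : eqv R S s t) (e2 : eqv R S t u) => eqv_trans h hR hB e1 e2
  -- (c2)
  have hc2 : ∀ b ∈ S, B w b → ∃ a ∈ S, R w a ∧ R a b := by
    intro b hb hwb
    obtain ⟨x, hx, hxw, hxb⟩ := t.w3 hw hb hwb
    rcases hx with hx | hx
    · have hnot : ¬ nb R S w ⊆ nb R S x := by
        intro hsub
        have hlt : (nb R S w).card < (nb R S x).card := by
          apply Finset.card_lt_card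
          refine ⟨hsub, ?_⟩
          intro hsub'
          exact h.ex (mem_nb.1 (hsub' (mem_nb.2 ⟨hb, hxb⟩))).2 hwb
        exact absurd (hmax x hx) (by simpa using hlt)
      obtain ⟨a, ha1, ha2⟩ := Finset.not_subset.1 hnot
      have ha := mem_nb.1 ha1
      have hxa : B x a := t.rb h hx ha.1 (fun hr => ha2 (mem_nb.2 ⟨ha.1, hr⟩))
      exact ⟨a, ha.1, ha.2, f1 h (t.zU hw) (t.zU hx) (t.zP ha.1) (t.zP hb) ha.2 hxb hwb hxa
        (h.rs hxw)⟩
    · exact ⟨x, hx, h.rs hxw, hxb⟩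
  -- the set B'
  set Bp : V → Prop := fun b => b ∈ S ∧ ∀ a ∈ S, R w a → ¬ eqv R S b a with hBp
  have hBw : ∀ b, Bp b → B w b := by
    intro b hb
    exact t.rb h hw hb.1 (fun hr => hb.2 b hb.1 hr (hrefl b hb.1))
  have c3a : ∀ b, Bp b → ∀ v ∈ M, R v b → ∀ a ∈ S, R w a → R a b → R v a → False := by
    intro b hb v hv hvb a ha hwa hab hva
    exact hb.2 a ha hwa (eqv_symm (m1 h o hv ha hb.1 hva hvb hab))
  have c3b : ∀ b, Bp b → ∀ v ∈ M, R v b → ∀ a ∈ S, R w a → ¬ R v a → R a b := by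
    intro b hb v hv hvb a ha hwa hnva
    have hbva := t.rb h hv ha hnva
    obtain ⟨a1, ha1, hwa1, ha1b⟩ := hc2 b hb.1 (hBw b hb)
    have hnva1 : B v a1 := t.rb h hv ha1 (fun hr => c3a b hb v hv hvb a1 ha1 hwa1 ha1b hr)
    have hwv : R w v := f1b h (t.zU hw) (t.zU hv) (t.zP ha1) (t.zP hb.1) hwa1 hvb (hBw b hb)
      hnva1 ha1b
    exact f1 h (t.zU hw) (t.zU hv) (t.zP ha) (t.zP hb.1) hwa hvb (hBw b hb) hbva hwv
  have c4 : ∀ b, Bp b → ∀ b', Bp b' → B b b' → ∀ a ∈ S, R w a → R a b' → R a b := by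
    intro b hb b' hb' hbb' a ha hwa hab'
    by_contra hn
    obtain ⟨v, hv, hvb⟩ := o.hS b hb.1
    obtain ⟨v', hv', hv'b'⟩ := o.hS b' hb'.1
    have hva : R v a := by
      by_contra hnv
      exact hn (c3b b hb v hv hvb a ha hwa hnv)
    have hv'a : B v' a := t.rb h hv' ha (fun hr => c3a b' hb' v' hv' hv'b' a ha hwa hab' hr)
    have hvb' : B v b' := t.rb h hv hb'.1 (fun hr => c3a b' hb' v hv hr a ha hwa hab' hva)
    have hv'b : B v' b := t.rb h hv' hb.1
      (fun hr => hn (c3b b hb v' hv' hr a ha hwa (fun hr' => h.ex hr' hv'a)))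
    have hvv' : R v v' := f1b h (t.zU hv) (t.zU hv') (t.zP ha) (t.zP hb'.1) hva hv'b' hvb' hv'a
      hab'
    exact h.ex (f1 h (t.zU hv) (t.zU hv') (t.zP hb.1) (t.zP hb'.1) hvb hv'b' hvb' hv'b hvv') hbb'
  have c5 : ∀ b, Bp b → ∀ b', Bp b' → R b b' → ∀ a ∈ S, R w a → ∀ a' ∈ S, R w a' →
      R a b → ¬ R a b' → R a' b' → ¬ R a' b → False := by
    intro b hb b' hb' hbb' a ha hwa a' ha' hwa' hab nab' ha'b' na'b
    obtain ⟨v, hv, hvb⟩ := o.hS b hb.1
    obtain ⟨v', hv', hv'b'⟩ := o.hS b' hb'.1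
    have hva : B v a := t.rb h hv ha (fun hr => c3a b hb v hv hvb a ha hwa hab hr)
    have hva' : R v a' := by
      by_contra hnv
      exact na'b (c3b b hb v hv hvb a' ha' hwa' hnv)
    have hv'a' : B v' a' := t.rb h hv' ha'
      (fun hr => c3a b' hb' v' hv' hv'b' a' ha' hwa' ha'b' hr)
    have hv'a : R v' a := by
      by_contra hnv
      exact nab' (c3b b' hb' v' hv' hv'b' a ha hwa hnv)
    have hvb' : B v b' := t.rb h hv hb'.1
      (fun hr => c3a b' hb' v hv hr a' ha' hwa' ha'b' hva')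
    have hv'b : B v' b := t.rb h hv' hb.1
      (fun hr => c3a b hb v' hv' hr a ha hwa hab hv'a)
    have hvv' : R v v' := f1b h (t.zU hv) (t.zU hv') (t.zP hb.1) (t.zP hb'.1) hvb hv'b' hvb'
      hv'b hbb'
    have haa : R a' a := f1 h (t.zU hv) (t.zU hv') (t.zP ha') (t.zP ha) hva' hv'a hva hv'a' hvv'
    exact na'b (h.rs (pi1 h (t.zU hw) (t.zP ha) (t.zP ha') (t.zP hb.1) hwa hwa' (hBw b hb)
      (h.rs haa) (h.rs hab)))
  -- B' is nonempty
  have hBne : ∃ b, Bp b := by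
    by_contra hcon
    push Not at hcon
    have hcov : ∀ s ∈ S, ∃ a ∈ S, R w a ∧ eqv R S s a := by
      intro s hs
      by_contra hh
      push Not at hh
      exact hcon s ⟨hs, hh⟩
    obtain ⟨t0, ht0, hnt0⟩ := eqv_proper h hR hB (hrefl a0 ha0)
    obtain ⟨x, hx, y, hy, hxy, hex, hny⟩ := hR (fun v => eqv R S a0 v) ⟨a0, ha0, hrefl a0 ha0⟩
      ⟨t0, ht0, hnt0⟩
    obtain ⟨a1, ha1, hwa1, hya1⟩ := hcov y hy
    have hnyx : ¬ eqv R S y x := fun e => hny (tr hex (eqv_symm e))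
    have r1 : R y a0 := homog hy hnyx (eqv_symm hex) (h.rs hxy)
    have r2 : R a0 a1 := homog ha0 hny hya1 (h.rs r1)
    have e1 := m1 h o hw ha0 ha1 hwa0 hwa1 r2
    exact hny (tr e1 (eqv_symm hya1))
  set BS : Finset V := S.filter (fun b => Bp b) with hBS
  have memBS : ∀ b, b ∈ BS ↔ Bp b := by
    intro b
    rw [hBS, Finset.mem_filter]
    exact ⟨fun hh => hh.2, fun hh => ⟨hh.1, hh⟩⟩
  obtain ⟨bs, hbsm, hbmax⟩ := Finset.exists_max_image BS
    (fun b => (nb R (nb R S w) b).card) (by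
      obtain ⟨b, hb⟩ := hBne
      exact ⟨b, (memBS b).2 hb⟩)
  have hbs : Bp bs := (memBS bs).1 hbsm
  have c6 : ∀ b, Bp b → ∀ a ∈ S, R w a → R a b → R a bs := by
    intro b hb a ha hwa hab
    by_contra hn
    have hne : b ≠ bs := by rintro rfl; exact hn hab
    rcases h.tot hne with hr | hb'
    · have hlt : (nb R (nb R S w) bs).card < (nb R (nb R S w) b).card := by
        apply Finset.card_lt_card
        refine ⟨?_, ?_⟩
        · intro x hx
          have hx := mem_nb.1 hx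
          have hx1 := mem_nb.1 hx.1
          refine mem_nb.2 ⟨hx.1, ?_⟩
          by_contra hnx
          exact c5 b hb bs hbs hr a ha hwa x hx1.1 hx1.2 hab hn (h.rs hx.2)
            (fun hh => hnx (h.rs hh))
        · intro hsub
          have := hsub (mem_nb.2 ⟨mem_nb.2 ⟨ha, hwa⟩, h.rs hab⟩)
          exact hn (h.rs (mem_nb.1 this).2)
      exact absurd (hbmax b ((memBS b).2 hb)) (by simpa using hlt)
    · exact hn (c4 bs hbs b hb (h.bs hb') a ha hwa hab)
  have c7 : ∀ a ∈ S, R w a → R a bs := by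
    intro a ha hwa
    by_contra hn
    obtain ⟨x, hx, y, hy, hxy, hex, hny⟩ := hR (fun v => eqv R S a v) ⟨a, ha, hrefl a ha⟩
      ⟨bs, hbs.1, fun e => hbs.2 a ha hwa (eqv_symm e)⟩
    have hnyx : ¬ eqv R S y x := fun e => hny (tr hex (eqv_symm e))
    have r1 : R y a := homog hy hnyx (eqv_symm hex) (h.rs hxy)
    by_cases hyB : Bp y
    · exact hn (c6 y hyB a ha hwa (h.rs r1))
    · have : ∃ a1 ∈ S, R w a1 ∧ eqv R S y a1 := by
        by_contra hh
        push Not at hh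
        exact hyB ⟨hy, hh⟩
      obtain ⟨a1, ha1, hwa1, hya1⟩ := this
      have r2 : R a a1 := homog ha hny hya1 (h.rs r1)
      exact hny (tr (m1 h o hw ha ha1 hwa hwa1 r2) (eqv_symm hya1))
  have c8 : ∀ b ∈ cc B BS bs, ∀ a ∈ S, R w a → R a b := by
    refine cc_ind hbsm (fun b => ∀ a ∈ S, R w a → R a b) c7 ?_
    intro x hx y hy hxy hall a ha hwa
    exact c4 y ((memBS y).1 hy) x ((memBS x).1 (cc_sub hx)) (h.bs hxy) a ha hwa (hall a ha hwa)
  obtain ⟨x, hx, y, hy, hxy, hxK, hyK⟩ := hB (fun v => v ∈ cc B BS bs)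
    ⟨bs, hbs.1, cc_self hbsm⟩
    ⟨a0, ha0, fun hh => ((memBS a0).1 (cc_sub hh)).2 a0 ha0 hwa0 (hrefl a0 ha0)⟩
  by_cases hyB : Bp y
  · exact hyK (cc_closed hxK ((memBS y).2 hyB) hxy)
  · have : ∃ a1 ∈ S, R w a1 ∧ eqv R S y a1 := by
      by_contra hh
      push Not at hh
      exact hyB ⟨hy, hh⟩
    obtain ⟨a1, ha1, hwa1, hya1⟩ := this
    have hxB := (memBS x).1 (cc_sub hxK)
    have r1 : R x a1 := h.rs (c8 x hxK a1 ha1 hwa1)
    have r2 : R x y := homog hxB.1 (hxB.2 a1 ha1 hwa1) (eqv_symm hya1) r1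
    exact h.ex r2 hxy

theorem no_OT (h : Cfg R B) {M S : Finset V} {z : V} (o : OT R B M S z) : False := by
  by_cases hB : Conn B S
  · exact caseA h o hB
  · exact caseB h o hB

/-- Main combinatorial statement: a finite two-coloured complete graph on at least two vertices in
which every edge is the odd edge of a triangle contains the pentagon or the bull pattern. -/
theorem main [Fintype V] [Nontrivial V] (h : Cfg R B)
    (t1 : ∀ x y, R x y → ∃ w, B w x ∧ B w y) (t2 : ∀ x y, B x y → ∃ w, R w x ∧ R w y) :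
    False := by
  classical
  -- choose a blue pair
  have hblue : ∃ z s : V, B z s := by
    obtain ⟨x, y, hxy⟩ := exists_pair_ne V
    rcases h.tot hxy with hr | hb
    · obtain ⟨w, hw, _⟩ := t1 x y hr
      exact ⟨w, x, hw⟩
    · exact ⟨x, y, hb⟩
  -- the neighbourhood finsets
  set N : V → Finset V := fun z => nb B Finset.univ z with hN
  have memN : ∀ z x, x ∈ N z ↔ B z x := by
    intro z x; rw [hN]; simp [mem_nb]
  obtain ⟨⟨z, s⟩, hzs, hmax⟩ := Finset.exists_max_image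
    (Finset.univ.filter (fun p : V × V => B p.1 p.2)) (fun p => (cc R (N p.1) p.2).card) (by
      obtain ⟨z, s, hzs⟩ := hblue
      exact ⟨(z, s), by simpa using hzs⟩)
  have hzs : B z s := by simpa using hzs
  have hmax' : ∀ z' s', B z' s' → (cc R (N z') s').card ≤ (cc R (N z) s).card := by
    intro z' s' hh
    exact hmax (z', s') (by simpa using hh)
  set S := cc R (N z) s with hS
  have hsN : s ∈ N z := (memN z s).2 hzs
  have hsS : s ∈ S := cc_self hsN
  have hzS : ∀ x ∈ S, B z x := fun x hx => (memN z x).1 (cc_sub hx)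
  have hSconn : Conn R S := cc_conn (T := R) h.rs hsN
  set M : Finset V := Finset.univ.filter (fun x => x ∉ S ∧ ∃ y ∈ S, R x y) with hM
  have memM : ∀ x, x ∈ M ↔ x ∉ S ∧ ∃ y ∈ S, R x y := by intro x; simp [hM]
  -- `Z` complete to `M`
  have hZM : ∀ w ∈ M, ∀ z', z' ∉ S → (∀ y ∈ S, B z' y) → R w z' := by
    intro w hw z' hz' hz'S
    obtain ⟨hwS, y, hyS, hwy⟩ := (memM w).1 hw
    have hne : w ≠ z' := by rintro rfl; exact h.ex hwy (hz'S y hyS)
    refine (h.tot hne).resolve_right fun hb => ?_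
    have hsN' : s ∈ N z' := (memN z' s).2 (hz'S s hsS)
    have hsub : S ⊆ cc R (N z') s := by
      intro x hx
      refine (cc_ind hsN (fun v => v ∈ cc R (N z') s) (cc_self hsN') ?_ x hx)
      intro a ha b hb' hab haK
      refine cc_closed haK ((memN z' b).2 (hz'S b ?_)) hab
      exact cc_closed ha hb' hab
    have hwK : w ∈ cc R (N z') s := cc_closed (hsub hyS) ((memN z' w).2 (h.bs hb)) (h.rs hwy)
    have hlt : S.card < (cc R (N z') s).card := by
      apply Finset.card_lt_card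
      exact ⟨hsub, fun hh => hwS (hh hwK)⟩
    exact absurd (hmax' z' s (hz'S s hsS)) (by simpa using hlt)
  have hzn : z ∉ S := fun hh => h.bi (hzS z hh)
  have cases : ∀ x, x ∈ S ∨ x ∈ M ∨ (x ∉ S ∧ ∀ y ∈ S, B x y) := by
    intro x
    by_cases hx : x ∈ S
    · exact Or.inl hx
    by_cases hx2 : ∃ y ∈ S, R x y
    · exact Or.inr (Or.inl ((memM x).2 ⟨hx, hx2⟩))
    · refine Or.inr (Or.inr ⟨hx, ?_⟩)
      intro y hy
      have hne : x ≠ y := by rintro rfl; exact hx hy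
      exact (h.tot hne).resolve_left fun hr => hx2 ⟨y, hy, hr⟩
  have hzM : ∀ w ∈ M, R z w := fun w hw => h.rs (hZM w hw z hzn hzS)
  have ht : HT R B M S z := by
    refine ⟨fun {u} hu => hzM u hu, fun {p} hp => hzS p hp, ?_, ?_⟩
    · intro u p hu hp hup
      obtain ⟨x, hxu, hxp⟩ := t1 u p hup
      rcases cases x with hx | hx | ⟨hx, hxS⟩
      · exact ⟨x, Or.inr hx, hxu, hxp⟩
      · exact ⟨x, Or.inl hx, hxu, hxp⟩
      · exact absurd hxu (fun hb => h.ex (hZM u hu x hx hxS) (h.bs hb))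
    · intro u p hu hp hup
      obtain ⟨x, hxu, hxp⟩ := t2 u p hup
      rcases cases x with hx | hx | ⟨hx, hxS⟩
      · exact ⟨x, Or.inr hx, hxu, hxp⟩
      · exact ⟨x, Or.inl hx, hxu, hxp⟩
      · exact absurd hxp (fun hr => h.ex hr (hxS p hp))
  refine no_OT h (M := M) (S := S) (z := z) ⟨ht, hSconn, ⟨s, hsS⟩, ?_, ?_, ?_⟩
  · intro s' hs'
    obtain ⟨x, hxz, hxs⟩ := t2 z s' (hzS s' hs')
    rcases cases x with hx | hx | ⟨hx, hxS⟩
    · exact absurd (hzS x hx) (fun hb => h.ex (h.rs hxz) hb)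
    · exact ⟨x, hx, hxs⟩
    · exact absurd hxs (fun hr => h.ex hr (hxS s' hs'))
  · intro w hw
    refine ⟨((memM w).1 hw).2, ?_⟩
    obtain ⟨x, hxw, hxz⟩ := t1 w z (h.rs (hzM w hw))
    rcases cases x with hx | hx | ⟨hx, hxS⟩
    · exact ⟨x, hx, h.bs hxw⟩
    · exact absurd hxz (fun hb => h.ex (h.rs (hzM x hx)) hb)
    · exact absurd hxw (fun hb => h.ex (hZM w hw x hx hxS) (h.bs hb))
  · intro w hw w' hw' hww'
    obtain ⟨x, hxw, hxw'⟩ := t1 w w' hww'
    rcases cases x with hx | hx | ⟨hx, hxS⟩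
    · exact ⟨x, Or.inr hx, hxw, hxw'⟩
    · exact ⟨x, Or.inl hx, hxw, hxw'⟩
    · exact absurd hxw (fun hb => h.ex (hZM w hw x hx hxS) (h.bs hb))

end Pool.Agent.KS6_41.SC5
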