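import Pool.Agent.KS6_41.SC5.Core

namespace Pool.Agent.KS6_41.SC5

open Finset

variable {V : Type*} {R B : V → V → Prop}

theorem red_of_not_mem (h : Cfg R B) {P : Finset V} {s x y : V} (hx : x ∈ cc B P s) (hy : y ∈ P)
    (hyn : y ∉ cc B P s) : R x y := by
  have hne : x ≠ y := by rintro rfl; exact hyn hx
  refine (h.tot hne).resolve_right fun hb => hyn (cc_closed hx hy hb)

theorem dich (h : Cfg R B) {U P : Finset V} {z : V} (t : HT R B U P z) {s u y x : V}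
    (hs : s ∈ P) (hu : u ∈ U) (hy : y ∈ P) (hyK : y ∉ cc B P s) (huy : R u y)
    (hx : x ∈ cc B P s) (hux : R u x) : ∀ k ∈ cc B P s, R u k := by
  by_contra hcon
  push Not at hcon
  obtain ⟨k, hk, hnk⟩ := hcon
  obtain ⟨a, ha, b, hb, hab, hua, hub⟩ :=
    cc_conn (T := B) h.bs hs (fun v => R u v) ⟨x, hx, hux⟩ ⟨k, hk, hnk⟩
  have hbP := cc_sub hb
  have haP := cc_sub ha
  have hub' : B u b := t.rb h hu hbP hub
  have hay := red_of_not_mem h ha hy hyK
  have hby := red_of_not_mem h hb hy hyK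
  have := pi1 h (t.zU hu) (t.zP hy) (t.zP haP) (t.zP hbP) huy hua hub' (h.rs hay) hby
  exact h.ex this (h.bs hab)

open Classical in
noncomputable def ua (R B : V → V → Prop) (U P : Finset V) (s : V) : Finset V :=
  U.filter (fun u => nb R P u ⊆ cc B P s)

theorem mem_ua {U P : Finset V} {s u : V} : u ∈ ua R B U P s ↔ u ∈ U ∧ nb R P u ⊆ cc B P s := by
  unfold ua; simp

/-- in type II a vertex outside `ua` misses the component completely -/
theorem miss (h : Cfg R B) {U P : Finset V} {z : V} (t : HT R B U P z) {w s u : V}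
    (hmax : ∀ u ∈ U, (nb R P u).card ≤ (nb R P w).card) (hs : s ∈ P)
    (hsub : nb R P w ⊆ cc B P s) (hu : u ∈ U) (hn : u ∉ ua R B U P s) :
    (∃ y ∈ P, y ∉ cc B P s ∧ R u y) ∧ ∀ k ∈ cc B P s, ¬ R u k := by
  have hns : ¬ nb R P u ⊆ cc B P s := fun hh => hn (mem_ua.2 ⟨hu, hh⟩)
  obtain ⟨y, hy1, hy2⟩ := Finset.not_subset.1 hns
  have hy := mem_nb.1 hy1
  refine ⟨⟨y, hy.1, hy2, hy.2⟩, ?_⟩
  intro k hk hrk
  have hall := dich h t hs hu hy.1 hy2 hy.2 hk hrk
  have hlt : (nb R P w).card < (nb R P u).card := by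
    apply Finset.card_lt_card
    refine ⟨?_, ?_⟩
    · intro x hx
      exact mem_nb.2 ⟨cc_sub (hsub hx), hall x (hsub hx)⟩
    · intro hsub'
      exact hy2 (hsub (hsub' hy1))
  exact absurd (hmax u hu) (by simpa using hlt)

theorem typeII (h : Cfg R B) {U P : Finset V} {z : V} (t : HT R B U P z) {w s : V}
    (hmax : ∀ u ∈ U, (nb R P u).card ≤ (nb R P w).card) (hs : s ∈ P)
    (hsub : nb R P w ⊆ cc B P s) : HT R B (ua R B U P s) (cc B P s) z where
  zU := fun hu => t.zU (mem_ua.1 hu).1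
  zP := fun hp => t.zP (cc_sub hp)
  w2 := by
    intro u p hu hp hup
    have hu' := mem_ua.1 hu
    obtain ⟨x, hx, hxu, hxp⟩ := t.w2 hu'.1 (cc_sub hp) hup
    rcases hx with hx | hx
    · by_cases hxa : x ∈ ua R B U P s
      · exact ⟨x, Or.inl hxa, hxu, hxp⟩
      · exfalso
        obtain ⟨⟨y, hyP, hyK, hxy⟩, hmiss⟩ := miss h t hmax hs hsub hx hxa
        have huy : ¬ R u y := fun hr => hyK (hu'.2 (mem_nb.2 ⟨hyP, hr⟩))
        have hbuy : B u y := t.rb h hu'.1 hyP huy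
        have hrux : R u x := f1b h (t.zU hu'.1) (t.zU hx) (t.zP (cc_sub hp)) (t.zP hyP) hup hxy
          hbuy hxp (red_of_not_mem h hp hyP hyK)
        exact h.ex hrux (h.bs hxu)
    · exact ⟨x, Or.inr (cc_closed hp hx (h.bs hxp)), hxu, hxp⟩
  w3 := by
    intro u p hu hp hup
    have hu' := mem_ua.1 hu
    obtain ⟨x, hx, hxu, hxp⟩ := t.w3 hu'.1 (cc_sub hp) hup
    rcases hx with hx | hx
    · by_cases hxa : x ∈ ua R B U P s
      · exact ⟨x, Or.inl hxa, hxu, hxp⟩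
      · exact absurd hxp ((miss h t hmax hs hsub hx hxa).2 p hp)
    · exact ⟨x, Or.inr (hu'.2 (mem_nb.2 ⟨hx, h.rs hxu⟩)), hxu, hxp⟩

theorem closedI (h : Cfg R B) {U P : Finset V} {z : V} (t : HT R B U P z) {w : V} (hw : w ∈ U)
    (hno : ∀ s ∈ P, ¬ nb R P w ⊆ cc B P s) {x y : V} (hx : x ∈ P) (hwx : R w x) (hy : y ∈ P)
    (hwy : ¬ R w y) : R x y := by
  by_contra hn
  have hne : x ≠ y := by rintro rfl; exact hwy hwx
  have hb := (h.tot hne).resolve_left hn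
  obtain ⟨x', hx'1, hx'2⟩ := Finset.not_subset.1 (hno x hx)
  have hx' := mem_nb.1 hx'1
  exact hwy (dich h t hx hw hx'.1 hx'2 hx'.2 (cc_self hx) hwx y (cc_closed (cc_self hx) hy hb))

theorem c0 (h : Cfg R B) {U P : Finset V} {z : V} (t : HT R B U P z) {w u : V} (hw : w ∈ U)
    (hmax : ∀ u ∈ U, (nb R P u).card ≤ (nb R P w).card)
    (hno : ∀ s ∈ P, ¬ nb R P w ⊆ cc B P s) (hu : u ∈ U) (huw : B u w) :
    ∀ p ∈ P, R u p → R w p := by
  intro p hp hup
  by_contra hwp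
  have hbwp : B w p := t.rb h hw hp hwp
  have hnot : ¬ nb R P w ⊆ nb R P u := by
    intro hsub
    have hlt : (nb R P w).card < (nb R P u).card := by
      apply Finset.card_lt_card
      refine ⟨hsub, ?_⟩
      intro hsub'
      exact hwp (mem_nb.1 (hsub' (mem_nb.2 ⟨hp, hup⟩))).2
    exact absurd (hmax u hu) (by simpa using hlt)
  obtain ⟨x, hx1, hx2⟩ := Finset.not_subset.1 hnot
  have hx := mem_nb.1 hx1
  have hux : B u x := t.rb h hu hx.1 (fun hr => hx2 (mem_nb.2 ⟨hx.1, hr⟩))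
  have hxp : R x p := closedI h t hw hno hx.1 hx.2 hp hwp
  have := f1b h (t.zU hw) (t.zU hu) (t.zP hx.1) (t.zP hp) hx.2 hup hbwp hux hxp
  exact h.ex this (h.bs huw)

/-- reachable by a blue walk of length `n` -/
def rch (B : V → V → Prop) (U : Finset V) (w : V) : ℕ → V → Prop
  | 0, u => u = w
  | n + 1, u => u ∈ U ∧ ∃ v ∈ U, rch B U w n v ∧ B v u

theorem rch_of_mem {U : Finset V} {w u : V} (hw : w ∈ U) (hu : u ∈ cc B U w) :
    ∃ n, rch B U w n u := by
  refine cc_ind hw (fun u => ∃ n, rch B U w n u) ⟨0, rfl⟩ ?_ u hu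
  rintro x hx y hy hxy ⟨n, hn⟩
  exact ⟨n + 1, hy, x, cc_sub hx, hn, hxy⟩

theorem c1 (h : Cfg R B) {U P : Finset V} {z : V} (t : HT R B U P z) {w u : V} (hw : w ∈ U)
    (hmax : ∀ u ∈ U, (nb R P u).card ≤ (nb R P w).card)
    (hno : ∀ s ∈ P, ¬ nb R P w ⊆ cc B P s) (hu : u ∈ cc B U w) :
    ∀ p ∈ P, R u p → R w p := by
  have key : ∀ n : ℕ, ∀ u, rch B U w n u → ∀ p ∈ P, R u p → R w p := by
    intro n
    induction n using Nat.strong_induction_on with
    | _ n ih =>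
      intro u hu p hp hup
      match n, ih, hu with
      | 0, _, hu => simp only [rch] at hu; subst hu; exact hup
      | 1, _, hu =>
        obtain ⟨hu1, v, hv, hv0, hvu⟩ := hu
        simp only [rch] at hv0; subst hv0
        exact c0 h t hv hmax hno hu1 (h.bs hvu) p hp hup
      | m + 2, ih, hu =>
        obtain ⟨hu1, v1, hv1, ⟨_, v2, hv2, hr2, hv21⟩, hv1u⟩ := hu
        have hr1 : rch B U w (m + 1) v1 := ⟨hv1, v2, hv2, hr2, hv21⟩
        by_cases hne : u = v2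
        · subst hne
          exact ih m (by omega) u hr2 p hp hup
        · rcases h.tot hne with hr | hb
          · by_cases hv2p : R v2 p
            · exact ih m (by omega) v2 hr2 p hp hv2p
            · have hb2 : B v2 p := t.rb h hv2 hp hv2p
              have := f2 h (t.zU hu1) (t.zU hv2) (t.zU hv1) (t.zP hp) hr hv1u (h.bs hv21) hup hb2
              exact ih (m + 1) (by omega) v1 hr1 p hp this
          · exact ih (m + 1) (by omega) u ⟨hu1, v2, hv2, hr2, h.bs hb⟩ p hp hup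
  obtain ⟨n, hn⟩ := rch_of_mem hw hu
  exact key n u hn

theorem c2 (h : Cfg R B) {U P : Finset V} {z : V} (t : HT R B U P z) {w : V} (hw : w ∈ U)
    (hno : ∀ s ∈ P, ¬ nb R P w ⊆ cc B P s) {p : V} (hp : p ∈ P) (hwp : R w p) :
    ∃ v ∈ U, B v w ∧ B v p := by
  obtain ⟨x, hx, hxw, hxp⟩ := t.w2 hw hp hwp
  rcases hx with hx | hx
  · exact ⟨x, hx, hxw, hxp⟩
  · exfalso
    have : R p x := closedI h t hw hno hp hwp hx (fun hr => h.ex hr (h.bs hxw))
    exact h.ex this (h.bs hxp)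

theorem typeI (h : Cfg R B) {U P : Finset V} {z : V} (t : HT R B U P z) {w : V} (hw : w ∈ U)
    (hmax : ∀ u ∈ U, (nb R P u).card ≤ (nb R P w).card)
    (hno : ∀ s ∈ P, ¬ nb R P w ⊆ cc B P s)
    (c3 : ∀ x ∈ U, x ∉ cc B U w → ∀ p ∈ P, R w p → ¬ R x p) :
    HT R B (cc B U w) (nb R P w) z where
  zU := fun hu => t.zU (cc_sub hu)
  zP := fun hp => t.zP (mem_nb.1 hp).1
  w2 := by
    intro u p hu hp hup
    have hp' := mem_nb.1 hp
    obtain ⟨x, hx, hxu, hxp⟩ := t.w2 (cc_sub hu) hp'.1 hup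
    rcases hx with hx | hx
    · exact ⟨x, Or.inl (cc_closed hu hx (h.bs hxu)), hxu, hxp⟩
    · refine ⟨x, Or.inr (mem_nb.2 ⟨hx, ?_⟩), hxu, hxp⟩
      by_contra hn
      exact h.ex (closedI h t hw hno hp'.1 hp'.2 hx hn) (h.bs hxp)
  w3 := by
    intro u p hu hp hup
    have hp' := mem_nb.1 hp
    obtain ⟨x, hx, hxu, hxp⟩ := t.w3 (cc_sub hu) hp'.1 hup
    rcases hx with hx | hx
    · refine ⟨x, Or.inl ?_, hxu, hxp⟩
      by_contra hn
      exact c3 x hx hn p hp'.1 hp'.2 hxp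
    · exact ⟨x, Or.inr (mem_nb.2 ⟨hx, c1 h t hw hmax hno hu x hx (h.rs hxu)⟩), hxu, hxp⟩

end Pool.Agent.KS6_41.SC5
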